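import Pool.Agent.Helper41.PS.Goals

/-!
# Packet PS-PR: a product inequality
-/

set_option autoImplicit false

namespace Pool.Agent.Helper69.PS.PR

open Pool.Agent.Helper41.PS Finset

theorem t : StmtPR := by
  intro A s u v hu
  classical
  induction A using Finset.induction_on with
  | empty => intro _; simp
  | insert b A hb ih =>
    intro h
    have hA : ∀ a ∈ A, 0 ≤ s a ∧ s a ≤ v := fun a ha => h a (mem_insert_of_mem ha)
    obtain ⟨hb0, hbv⟩ := h b (mem_insert_self b A)
    have hv : 0 ≤ v := hb0.trans hbv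
    have ih' := ih hA
    rw [prod_insert hb, prod_insert hb, card_insert_of_notMem hb, Nat.add_sub_cancel]
    set P := ∏ a ∈ A, s a with hP
    set Q := ∏ a ∈ A, max 0 (s a - u) with hQ
    set k := A.card with hk
    have hP0 : 0 ≤ P := prod_nonneg fun a ha => (hA a ha).1
    have hPv : P ≤ v ^ k := by
      have := prod_le_prod (fun a ha => (hA a ha).1) (fun a ha => (hA a ha).2)
      rwa [prod_const] at this
    have hm0 : 0 ≤ max 0 (s b - u) := le_max_left _ _
    have hm1 : s b - u ≤ max 0 (s b - u) := le_max_right _ _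
    have hm2 : max 0 (s b - u) ≤ v := max_le hv (by linarith)
    have hk0 : 0 ≤ (k : ℝ) * (u * v ^ (k - 1)) := by positivity
    have hkv : v * ((k : ℝ) * (u * v ^ (k - 1))) = (k : ℝ) * (u * v ^ k) := by
      rcases Nat.eq_zero_or_pos k with h0 | h0
      · rw [h0]; simp
      · obtain ⟨j, hj⟩ : ∃ j, k = j + 1 := ⟨k - 1, by omega⟩
        rw [hj, Nat.add_sub_cancel]
        ring
    have h1 : max 0 (s b - u) * (P - (k : ℝ) * (u * v ^ (k - 1))) ≤ max 0 (s b - u) * Q :=
      mul_le_mul_of_nonneg_left ih' hm0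
    have h2 : (s b - u) * P ≤ max 0 (s b - u) * P := mul_le_mul_of_nonneg_right hm1 hP0
    have h3 : max 0 (s b - u) * ((k : ℝ) * (u * v ^ (k - 1))) ≤ (k : ℝ) * (u * v ^ k) := by
      rw [← hkv]
      exact mul_le_mul_of_nonneg_right hm2 hk0
    have h4 : u * P ≤ u * v ^ k := mul_le_mul_of_nonneg_left hPv hu
    push_cast
    nlinarith

end Pool.Agent.Helper69.PS.PR
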